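import Mathlib

set_option autoImplicit false

namespace Pool.Agent.H.MP_afadd1_co

open Finset

variable {R : Type} [CommRing R]

/-- sign sequences -/
def IsPM (w : ℕ → ℤ) : Prop := ∀ p, w p = 1 ∨ w p = -1

/-- `X` is a polynomial in `z` with `L` coefficients, all of them signs -/
def Word (z : R) (L : ℕ) (X : R) : Prop :=
  ∃ w : ℕ → ℤ, IsPM w ∧ X = ∑ p ∈ range L, (w p : R) * z ^ p

lemma Word.zero (z : R) : Word z 0 0 := ⟨fun _ => 1, fun _ => Or.inl rfl, by simp⟩

lemma Word.one (z : R) : Word z 1 1 := ⟨fun _ => 1, fun _ => Or.inl rfl, by simp⟩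

lemma Word.append {z : R} {L M : ℕ} {X Y : R} (h1 : Word z L X) (h2 : Word z M Y) :
    Word z (L + M) (X + z ^ L * Y) := by
  obtain ⟨v, hv, rfl⟩ := h1
  obtain ⟨w, hw, rfl⟩ := h2
  refine ⟨fun p => if p < L then v p else w (p - L), fun p => ?_, ?_⟩
  · by_cases h : p < L
    · simp only [h, if_true]; exact hv p
    · simp only [h, if_false]; exact hw _
  · rw [sum_range_add, mul_sum]
    congr 1
    · refine sum_congr rfl fun p hp => ?_
      simp only [mem_range.1 hp, if_true]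
    · refine sum_congr rfl fun p _ => ?_
      have : ¬ (L + p < L) := by omega
      simp only [this, if_false, Nat.add_sub_cancel_left]
      ring

lemma Word.neg {z : R} {L : ℕ} {X : R} (h : Word z L X) : Word z L (-X) := by
  obtain ⟨v, hv, rfl⟩ := h
  refine ⟨fun p => - v p, fun p => ?_, ?_⟩
  · rcases hv p with h | h <;> simp [h]
  · rw [← sum_neg_distrib]
    refine sum_congr rfl fun p _ => ?_
    push_cast; ring

lemma Word.blocks {z : R} (τ len : ℕ → ℕ) (X : ℕ → R) (h0 : τ 0 = 0) (k : ℕ)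
    (hs : ∀ i < k, τ (i + 1) = τ i + len i) (hX : ∀ i < k, Word z (len i) (X i)) :
    Word z (τ k) (∑ i ∈ range k, z ^ (τ i) * X i) := by
  induction k with
  | zero => rw [h0]; simpa using Word.zero z
  | succ k ih =>
    rw [sum_range_succ, hs k (by omega)]
    exact (ih (fun i hi => hs i (by omega)) (fun i hi => hX i (by omega))).append
      (hX k (by omega))

lemma Word.sigsig {z : R} (σ : R →+* R) (hzz : σ (σ z) = z) {L : ℕ} {X : R} (h : Word z L X) :
    σ (σ X) = X := by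
  obtain ⟨v, _, rfl⟩ := h
  simp [map_sum, hzz]

lemma Word.rev {z : R} (σ : R →+* R) (hz : z * σ z = 1) {L : ℕ} {X : R} (h : Word z L X) :
    Word z L (z ^ (L - 1) * σ X) := by
  obtain ⟨v, hv, rfl⟩ := h
  refine ⟨fun p => v (L - 1 - p), fun p => hv _, ?_⟩
  rw [map_sum, mul_sum, ← sum_range_reflect]
  refine sum_congr rfl fun p hp => ?_
  have hp' := mem_range.1 hp
  have e : L - 1 = p + (L - 1 - p) := by omega
  have : z ^ (L - 1) * (σ z) ^ (L - 1 - p) = z ^ p := by
    calc z ^ (L - 1) * (σ z) ^ (L - 1 - p)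
        = z ^ (p + (L - 1 - p)) * (σ z) ^ (L - 1 - p) := by rw [← e]
      _ = z ^ p * (z * σ z) ^ (L - 1 - p) := by rw [pow_add, mul_pow]; ring
      _ = z ^ p := by rw [hz]; simp
  simp only [map_mul, map_intCast, map_pow]
  rw [← this]; ring

/-- Golay pairs of every power-of-two length -/
lemma golay {z : R} (σ : R →+* R) (hz : z * σ z = 1) (s : ℕ) :
    ∃ A B : R, Word z (2 ^ s) A ∧ Word z (2 ^ s) B ∧ A * σ A + B * σ B = 2 * 2 ^ s := by
  induction s with
  | zero => exact ⟨1, 1, Word.one z, Word.one z, by simp; norm_num⟩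
  | succ s ih =>
    obtain ⟨A, B, hA, hB, h⟩ := ih
    have e : 2 ^ (s + 1) = 2 ^ s + 2 ^ s := by ring
    refine ⟨A + z ^ (2 ^ s) * B, A + z ^ (2 ^ s) * (-B), e ▸ hA.append hB, e ▸ hA.append hB.neg, ?_⟩
    have hu : z ^ (2 ^ s) * (σ z) ^ (2 ^ s) = 1 := by rw [← mul_pow, hz, one_pow]
    simp only [map_add, map_mul, map_pow, map_neg]
    linear_combination 2 * h + 2 * (B * σ B) * hu

/-- two positions in `ℤ / t²` that are neither close nor congruent mod `t` -/
def Far (t p q : ℕ) : Prop :=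
  ¬ (p ≡ q [MOD t]) ∧ (p + t ≤ q ∨ q + t ≤ p) ∧ p + t ≤ q + t * t ∧ q + t ≤ p + t * t

lemma indep {z : R} (σ : R →+* R) (t : ℕ) (f : R →+ ℤ)
    (hf : ∀ p q : ℕ, (p = q ∨ Far t p q) → f (z ^ p * (σ z) ^ q) = 0)
    (I : Finset ℕ) (π : ℕ → ℕ) (hπ : ∀ i ∈ I, ∀ j ∈ I, i ≠ j → Far t (π i) (π j)) :
    f ((∑ i ∈ I, z ^ π i) * σ (∑ i ∈ I, z ^ π i)) = 0 := by
  rw [map_sum σ, sum_mul_sum, map_sum]
  refine sum_eq_zero fun i hi => ?_
  rw [map_sum]
  refine sum_eq_zero fun j hj => ?_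
  rw [map_pow]
  by_cases h : i = j
  · exact hf _ _ (Or.inl (by rw [h]))
  · exact hf _ _ (Or.inr (hπ i hi j hj h))

/-- a walk with steps `L` or `L + 1` visiting distinct residues mod `t` -/
lemma walk (t L : ℕ) (ht : 0 < t) : ∃ o : ℕ, 0 < o ∧ ∀ i < t, ∀ j < t,
    i * L + i / o ≡ j * L + j / o [MOD t] → i = j := by
  obtain ⟨o, ho⟩ := Nat.gcd_dvd_right L t
  obtain ⟨m, hm⟩ := Nat.gcd_dvd_left L t
  have hd : 0 < Nat.gcd L t := Nat.gcd_pos_of_pos_right _ ht
  have hop : 0 < o := by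
    rcases Nat.eq_zero_or_pos o with h | h
    · rw [h] at ho; omega
    · exact h
  have hco : Nat.Coprime m o := by
    have := Nat.coprime_div_gcd_div_gcd (m := L) (n := t) hd
    have e1 : L / Nat.gcd L t = m := Nat.div_eq_of_eq_mul_right hd hm
    have e2 : t / Nat.gcd L t = o := Nat.div_eq_of_eq_mul_right hd ho
    rwa [e1, e2] at this
  generalize Nat.gcd L t = d at ho hm hd
  refine ⟨o, hop, fun i hi j hj h => ?_⟩
  have hi' : i / o < d := by rw [Nat.div_lt_iff_lt_mul hop]; omega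
  have hj' : j / o < d := by rw [Nat.div_lt_iff_lt_mul hop]; omega
  have h1 : i * L + i / o ≡ j * L + j / o [MOD d] := h.of_dvd ⟨o, ho⟩
  have h2 : i / o ≡ j / o [MOD d] := by
    have a1 : i * L + i / o ≡ i / o [MOD d] := by
      have : i * L ≡ 0 [MOD d] := (Nat.modEq_zero_iff_dvd).2 ⟨i * m, by rw [hm]; ring⟩
      simpa using this.add_right (i / o)
    have a2 : j * L + j / o ≡ j / o [MOD d] := by
      have : j * L ≡ 0 [MOD d] := (Nat.modEq_zero_iff_dvd).2 ⟨j * m, by rw [hm]; ring⟩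
      simpa using this.add_right (j / o)
    exact a1.symm.trans (h1.trans a2)
  have h3 : i / o = j / o := Nat.ModEq.eq_of_lt_of_lt h2 hi' hj'
  rw [h3] at h
  have h4 : i * L ≡ j * L [MOD t] := Nat.ModEq.add_right_cancel' _ h
  have h5 : d * (i * m) ≡ d * (j * m) [MOD d * o] := by
    have e1 : d * (i * m) = i * L := by rw [hm]; ring
    have e2 : d * (j * m) = j * L := by rw [hm]; ring
    rw [e1, e2, ← ho]; exact h4
  have h6 : i * m ≡ j * m [MOD o] := Nat.ModEq.mul_left_cancel' hd.ne' h5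
  have h7 : i ≡ j [MOD o] := Nat.ModEq.cancel_right_of_coprime hco.symm h6
  have h8 : i % o = j % o := h7
  calc i = o * (i / o) + i % o := (Nat.div_add_mod i o).symm
    _ = o * (j / o) + j % o := by rw [h3, h8]
    _ = j := Nat.div_add_mod j o

end Pool.Agent.H.MP_afadd1_co
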