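import Mathlib
import Pool.Agent.H.MP_afadd1_co.Word

set_option autoImplicit false

namespace Pool.Agent.H.MP_afadd1_co

open Finset

variable {R : Type} [CommRing R]

lemma reach (o β : ℕ) : ∃ u : ℕ, 4 * u + u / o ≤ β ∧ β ≤ 4 * u + u / o + 4 := by
  induction β with
  | zero => exact ⟨0, by simp, by simp⟩
  | succ β ih =>
    obtain ⟨u, h1, h2⟩ := ih
    by_cases h : β + 1 ≤ 4 * u + u / o + 4
    · exact ⟨u, by omega, h⟩
    · have := Nat.succ_div (a := u) (b := o)
      refine ⟨u + 1, ?_, ?_⟩ <;> split_ifs at this <;> omega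

/-- the layout of the first run of blocks -/
lemma layout (t G β : ℕ) (ht : 0 < t) (n : ℕ) (hn : n ≤ t) (hβ : β < 4 * n) :
    ∃ (k : ℕ) (τ gap : ℕ → ℕ), τ 0 = 0 ∧ (∀ i < k, τ (i + 1) = τ i + (G + gap i)) ∧
      (∀ i, gap i ≤ 6) ∧ τ k = k * G + β ∧ k ≤ n ∧
      ∀ i < k, ∀ j < k, τ i ≡ τ j [MOD t] → i = j := by
  obtain ⟨o, _, ho⟩ := walk t (G + 4) ht
  obtain ⟨u, h1, h2⟩ := reach o β
  have h4 : 4 * u ≤ β := le_trans (Nat.le_add_right _ _) h1
  refine ⟨u + 1, fun i => if i ≤ u then i * (G + 4) + i / o else (u + 1) * G + β,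
    fun i => if i < u then 4 + ((i + 1) / o - i / o) else β - (4 * u + u / o),
    by simp, fun i hi => ?_, fun i => ?_, by simp, by omega, fun i hi j hj h => ?_⟩
  · have := Nat.succ_div (a := i) (b := o)
    by_cases h : i < u
    · have a1 : i + 1 ≤ u := h
      have a2 : i ≤ u := h.le
      simp only [a1, a2, h, if_true]
      have e : (i + 1) * (G + 4) = i * (G + 4) + G + 4 := by ring
      rw [e]
      split_ifs at this <;> omega
    · obtain rfl : i = u := by omega
      have a1 : ¬ (i + 1 ≤ i) := by omega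
      simp only [a1, h, if_false, le_refl, if_true]
      have e : (i + 1) * G = i * G + G := by ring
      have e' : i * (G + 4) = i * G + 4 * i := by ring
      rw [e, e']
      omega
  · have := Nat.succ_div (a := i) (b := o)
    beta_reduce
    split_ifs at this ⊢ <;> omega
  · have a1 : i ≤ u := by omega
    have a2 : j ≤ u := by omega
    simp only [a1, a2, if_true] at h
    exact ho i (by omega) j (by omega) h

def sg (b : Bool) : ℤ := if b then -1 else 1

def eps (a b c : Bool) (i : ℕ) : ℤ :=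
  (if i / 2 = 0 then sg a else if i / 2 = 1 then sg b else sg a * sg b) *
    (if i % 2 = 0 then 1 else sg c)

lemma eps_pm (a b c : Bool) : IsPM (eps a b c) := by
  intro p
  unfold eps
  cases a <;> cases b <;> cases c <;> split_ifs <;> simp [sg]

theorem core {z : R} (σ : R →+* R) (hz : z * σ z = 1) (hzz : σ (σ z) = z) (t : ℕ)
    (hodd : Odd t) (h3 : 3 ≤ t) :
    ∃ X : Bool → Bool → Bool → R, (∀ a b c, Word z (t * t) (X a b c)) ∧
      ∀ f : R →+ ℤ, (∀ p q : ℕ, (p = q ∨ Far t p q) → f (z ^ p * (σ z) ^ q) = 0) →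
        f (∑ a, ∑ b, ∑ c, X a b c * σ (X a b c)) = 0 := by
  obtain ⟨s, hs1, hs2⟩ : ∃ s : ℕ, t ≤ 2 ^ (s + 2) ∧ 2 ^ (s + 2) < 2 * t := by
    have a1 := Nat.le_pow_clog (b := 2) (by norm_num) t
    have a2 := Nat.pow_pred_clog_lt_self (b := 2) (by norm_num) (x := t) (by omega)
    rcases h : Nat.clog 2 t with _ | _ | s
    · rw [h] at a1; omega
    · rw [h] at a1; omega
    · rw [h] at a1 a2
      refine ⟨s, a1, ?_⟩
      have e : 2 ^ (s + 2) = 2 * 2 ^ (s + 1) := by ring
      have a3 : 2 ^ (s + 1) < t := a2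
      omega
  obtain ⟨A, B, hA, hB, hAB⟩ := golay σ hz (s + 2)
  have hcop : Nat.Coprime t (2 ^ (s + 2)) :=
    Nat.Coprime.pow_right _ ((Nat.coprime_two_right).2 hodd)
  have hg : 2 ^ (s + 2) = 4 * 2 ^ s := by ring
  have hAB' : A * σ A + B * σ B = 2 * ((2 ^ (s + 2) : ℕ) : R) := by rw [hAB]; push_cast; ring
  clear hAB
  generalize 2 ^ s = g at hg
  generalize 2 ^ (s + 2) = G at *
  have hG0 : 0 < G := by omega
  have hdm := Nat.div_add_mod (t * t) G
  have hlt := Nat.mod_lt (t * t) hG0
  have hn : t * t / G ≤ t := by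
    apply Nat.div_le_of_le_mul
    exact Nat.mul_le_mul_right _ hs1
  have hgn : g ≤ t * t / G := by
    rw [Nat.le_div_iff_mul_le hG0]
    have : 2 * g < t := by omega
    nlinarith
  generalize t * t / G = n at *
  generalize t * t % G = β at *
  obtain ⟨k, τ, gap, h0, hstep, hgap, hend, hkn, hinj⟩ :=
    layout t G β (by omega) n hn (by omega)
  have hmono : ∀ j ≤ k, ∀ i < j, τ i + (G + gap i) ≤ τ j := by
    intro j
    induction j with
    | zero => intro _ i hi; omega
    | succ j ih =>
      intro hj i hi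
      rw [hstep j (by omega)]
      rcases Nat.lt_succ_iff_lt_or_eq.1 hi with h | h
      · have := ih (by omega) i h; omega
      · rw [h]
  have htot : τ k + (n - k) * G = t * t := by
    obtain ⟨m, rfl⟩ := Nat.exists_eq_add_of_le hkn
    rw [hend, ← hdm, Nat.add_sub_cancel_left]; ring
  obtain ⟨T1, hT1⟩ : ∃ T1 : R, T1 = ∑ i ∈ range k, z ^ τ i := ⟨_, rfl⟩
  obtain ⟨T2, hT2⟩ : ∃ T2 : R, T2 = ∑ j ∈ range (n - k), z ^ (τ k + j * G) := ⟨_, rfl⟩
  obtain ⟨V, hV⟩ : ∃ V : ℕ → R,
      ∀ c, V c = ∑ i ∈ (range k).filter (fun i => c < gap i), z ^ (τ i + G + c) :=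
    ⟨_, fun _ => rfl⟩
  have hword : ∀ (ε : ℕ → ℤ) (P Q : R), IsPM ε → Word z G P → Word z G Q →
      Word z (t * t) (P * T1 + Q * T2 + ∑ c ∈ range 6, (ε c : R) * V c) := by
    intro ε P Q hε hP hQ
    have w1 := Word.blocks (z := z) τ (fun i => G + gap i)
      (fun i => P + z ^ G * ∑ c ∈ range (gap i), (ε c : R) * z ^ c) h0 k hstep
      (fun i _ => hP.append ⟨ε, hε, rfl⟩)
    have w2 := Word.blocks (z := z) (fun j => j * G) (fun _ => G) (fun _ => Q) (by simp) (n - k)
      (fun i _ => by ring) (fun _ _ => hQ)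
    have w3 := w1.append w2
    rw [htot] at w3
    convert w3 using 1
    have e1 : ∑ c ∈ range 6, (ε c : R) * V c =
        ∑ i ∈ range k, z ^ τ i * (z ^ G * ∑ c ∈ range (gap i), (ε c : R) * z ^ c) := by
      simp only [hV, sum_filter, mul_sum]
      rw [sum_comm]
      refine sum_congr rfl fun i _ => ?_
      have : range (gap i) = (range 6).filter (fun c => c < gap i) := by
        ext c
        have := hgap i
        simp only [mem_filter, mem_range]
        omega
      rw [this, sum_filter]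
      refine sum_congr rfl fun c _ => ?_
      split_ifs
      · ring
      · simp
    rw [e1, hT1, hT2]
    simp only [mul_add, sum_add_distrib, mul_sum]
    have e2 : ∑ i ∈ range k, P * z ^ τ i = ∑ i ∈ range k, z ^ τ i * P :=
      sum_congr rfl fun i _ => mul_comm _ _
    have e3 : ∑ j ∈ range (n - k), Q * z ^ (τ k + j * G) =
        ∑ j ∈ range (n - k), z ^ τ k * (z ^ (j * G) * Q) :=
      sum_congr rfl fun i _ => by ring
    rw [e2, e3]
    ring
  have hu : z ^ (G - 1) * (σ z) ^ (G - 1) = 1 := by rw [← mul_pow, hz, one_pow]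
  refine ⟨fun a b c => (if c then B else A) * T1 +
      (if c then z ^ (G - 1) * σ A else -(z ^ (G - 1) * σ B)) * T2 +
      ∑ i ∈ range 6, (eps a b c i : R) * V i, fun a b c => ?_, fun f hf => ?_⟩
  · apply hword _ _ _ (eps_pm a b c)
    · cases c
      · exact hA
      · exact hB
    · cases c
      · exact (hB.rev σ hz).neg
      · exact hA.rev σ hz
  · have f1 : f (T1 * σ T1) = 0 := by
      rw [hT1]
      refine indep σ t f hf _ _ fun i hi j hj hij => ?_
      have hi' := mem_range.1 hi
      have hj' := mem_range.1 hj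
      have b1 := hmono k le_rfl i hi'
      have b2 := hmono k le_rfl j hj'
      refine ⟨fun h => hij (hinj i hi' j hj' h), ?_, by omega, by omega⟩
      rcases Nat.lt_or_gt_of_ne hij with h | h
      · have := hmono j hj'.le i h; omega
      · have := hmono i hi'.le j h; omega
    have f2 : f (T2 * σ T2) = 0 := by
      rw [hT2]
      refine indep σ t f hf _ _ fun i hi j hj hij => ?_
      have hi' := mem_range.1 hi
      have hj' := mem_range.1 hj
      have b1 : (i + 1) * G ≤ (n - k) * G := Nat.mul_le_mul_right _ hi'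
      have b2 : (j + 1) * G ≤ (n - k) * G := Nat.mul_le_mul_right _ hj'
      rw [Nat.add_mul] at b1 b2
      refine ⟨fun h => hij ?_, ?_, by omega, by omega⟩
      · have c1 : i * G ≡ j * G [MOD t] := Nat.ModEq.add_left_cancel' _ h
        have c2 : i ≡ j [MOD t] := Nat.ModEq.cancel_right_of_coprime hcop c1
        exact Nat.ModEq.eq_of_lt_of_lt c2 (by omega) (by omega)
      · rcases Nat.lt_or_gt_of_ne hij with h | h
        · have : (i + 1) * G ≤ j * G := Nat.mul_le_mul_right _ h
          rw [Nat.add_mul] at this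
          omega
        · have : (j + 1) * G ≤ i * G := Nat.mul_le_mul_right _ h
          rw [Nat.add_mul] at this
          omega
    have f3 : ∀ c, f (V c * σ (V c)) = 0 := by
      intro c
      rw [hV]
      refine indep σ t f hf _ _ fun i hi j hj hij => ?_
      obtain ⟨hi1, hi2⟩ := mem_filter.1 hi
      obtain ⟨hj1, hj2⟩ := mem_filter.1 hj
      have hi' := mem_range.1 hi1
      have hj' := mem_range.1 hj1
      have b1 := hmono k le_rfl i hi'
      have b2 := hmono k le_rfl j hj'
      refine ⟨fun h => hij (hinj i hi' j hj' ?_), ?_, by omega, by omega⟩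
      · exact Nat.ModEq.add_right_cancel' G (Nat.ModEq.add_right_cancel' c h)
      · rcases Nat.lt_or_gt_of_ne hij with h | h
        · have := hmono j hj'.le i h; omega
        · have := hmono i hi'.le j h; omega
    have key : (∑ a : Bool, ∑ b : Bool, ∑ c : Bool,
        ((if c then B else A) * T1 +
          (if c then z ^ (G - 1) * σ A else -(z ^ (G - 1) * σ B)) * T2 +
          ∑ i ∈ range 6, (eps a b c i : R) * V i) *
        σ ((if c then B else A) * T1 +
          (if c then z ^ (G - 1) * σ A else -(z ^ (G - 1) * σ B)) * T2 +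
          ∑ i ∈ range 6, (eps a b c i : R) * V i)) =
        (8 * G) • (T1 * σ T1) + (8 * G) • (T2 * σ T2) +
          8 • (V 0 * σ (V 0) + V 1 * σ (V 1) + V 2 * σ (V 2) + V 3 * σ (V 3) + V 4 * σ (V 4)
            + V 5 * σ (V 5)) := by
      have sA := hA.sigsig σ hzz
      have sB := hB.sigsig σ hzz
      simp only [Fintype.sum_bool, sum_range_succ, sum_range_zero, eps, sg, nsmul_eq_mul]
      norm_num
      simp only [sA, sB]
      linear_combination (4 * (T1 * σ T1) + 4 * (z ^ (G - 1) * (σ z) ^ (G - 1)) * (T2 * σ T2)) * hAB'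
        + 8 * (G : R) * (T2 * σ T2) * hu
    rw [key]
    simp only [map_add, map_nsmul, f1, f2, f3, smul_zero, add_zero]

end Pool.Agent.H.MP_afadd1_co
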