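import Mathlib
import Pool.Agent.H.MP_afadd1_co.Core

set_option autoImplicit false

namespace Pool.Agent.H.MP_afadd1_co

open Finset

lemma sum_zmod (N : ℕ) [NeZero N] (F : ZMod N → ℤ) :
    ∑ p ∈ range N, F (p : ZMod N) = ∑ m : ZMod N, F m := by
  refine sum_nbij' (fun p => (p : ZMod N)) (fun m => m.val) (fun _ _ => mem_univ _)
    (fun m _ => mem_range.2 (ZMod.val_lt m)) (fun p hp => ZMod.val_cast_of_lt (mem_range.1 hp))
    (fun m _ => ZMod.natCast_zmod_val m) (fun _ _ => rfl)

/-- eight sign functions on `ℤ / t²` whose autocorrelations cancel at short shifts and at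
multiples of `t` -/
theorem eight (t : ℕ) [NeZero (t * t)] (hodd : Odd t) (h3 : 3 ≤ t) :
    ∃ g : Bool → Bool → Bool → ZMod (t * t) → ℤ,
      (∀ a b c m, g a b c m = 1 ∨ g a b c m = -1) ∧
      ∀ x y : ZMod (t * t),
        ((∃ i j : Fin t, i ≠ j ∧ x = ((i : ℕ) : ZMod (t * t)) ∧ y = ((j : ℕ) : ZMod (t * t))) ∨
         (∃ i j : Fin t, i ≠ j ∧ x = ((t * i : ℕ) : ZMod (t * t)) ∧
            y = ((t * j : ℕ) : ZMod (t * t)))) →
        ∑ a, ∑ b, ∑ c, ∑ m, g a b c (x + m) * g a b c (y + m) = 0 := by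
  obtain ⟨σ, hσ⟩ : ∃ σ : AddMonoidAlgebra ℤ (ZMod (t * t)) →+* AddMonoidAlgebra ℤ (ZMod (t * t)),
      ∀ m r, σ (AddMonoidAlgebra.single m r) = AddMonoidAlgebra.single (-m) r :=
    ⟨AddMonoidAlgebra.mapDomainRingHom ℤ negAddMonoidHom, fun m r => by simp⟩
  obtain ⟨z, hzd⟩ : ∃ z : AddMonoidAlgebra ℤ (ZMod (t * t)), z = AddMonoidAlgebra.single 1 1 :=
    ⟨_, rfl⟩
  have hz : z * σ z = 1 := by
    rw [hzd, hσ, AddMonoidAlgebra.single_mul_single, add_neg_cancel, mul_one]; rfl
  have hzz : σ (σ z) = z := by rw [hzd, hσ, hσ, neg_neg]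
  obtain ⟨X, hX, hf⟩ := core σ hz hzz t hodd h3
  choose w hw hXw using hX
  refine ⟨fun a b c m => w a b c m.val, fun a b c m => hw a b c _, fun x y hxy => ?_⟩
  obtain ⟨f, hfd⟩ : ∃ f : AddMonoidAlgebra ℤ (ZMod (t * t)) →+ ℤ, ∀ P, f P = P.coeff (x - y) :=
    ⟨(Finsupp.applyAddHom (x - y)).comp AddMonoidAlgebra.coeffAddEquiv.toAddMonoidHom,
      fun _ => rfl⟩
  have hpq : ∀ p q : ℕ, f (z ^ p * (σ z) ^ q) =
      if (p : ZMod (t * t)) - (q : ZMod (t * t)) = x - y then 1 else 0 := by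
    intro p q
    rw [hfd, hzd, hσ, AddMonoidAlgebra.single_pow, AddMonoidAlgebra.single_pow,
      AddMonoidAlgebra.single_mul_single, AddMonoidAlgebra.coeff_single, Finsupp.single_apply]
    simp [sub_eq_add_neg]
  have h0 := hf f (by
    intro p q h
    rw [hpq, if_neg]
    intro he
    have he' : (p : ZMod (t * t)) + y = q + x := by linear_combination he
    rcases hxy with ⟨i, j, hij, rfl, rfl⟩ | ⟨i, j, hij, rfl, rfl⟩
    · rw [← Nat.cast_add, ← Nat.cast_add, ZMod.natCast_eq_natCast_iff] at he'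
      have hi := i.2
      have hj := j.2
      have hij' : (i : ℕ) ≠ j := fun e => hij (Fin.ext e)
      have ht : 3 * t ≤ t * t := Nat.mul_le_mul_right _ h3
      have := Nat.ModEq.eq_of_abs_lt he' (by
        rw [abs_lt]
        rcases h with h | ⟨_, h, h1, h2⟩
        · constructor <;> omega
        · constructor <;> omega)
      rcases h with h | ⟨_, h, h1, h2⟩ <;> omega
    · rw [← Nat.cast_add, ← Nat.cast_add, ZMod.natCast_eq_natCast_iff] at he'
      rcases h with h | ⟨h, _⟩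
      · rw [h] at he'
        have c1 : t * j ≡ t * i [MOD t * t] := Nat.ModEq.add_left_cancel' _ he'
        have c2 : (j : ℕ) ≡ i [MOD t] := Nat.ModEq.mul_left_cancel' (by omega) c1
        exact hij (Fin.ext (Nat.ModEq.eq_of_lt_of_lt c2 j.2 i.2).symm)
      · apply h
        have c1 : p + t * j ≡ q + t * i [MOD t] := he'.of_dvd ⟨t, rfl⟩
        simpa [Nat.ModEq] using c1)
  rw [← h0]
  simp only [map_sum]
  refine sum_congr rfl fun a _ => sum_congr rfl fun b _ => sum_congr rfl fun c _ => ?_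
  rw [hXw a b c, map_sum σ, sum_mul_sum, map_sum]
  have e1 : ∀ p : ℕ, f (∑ q ∈ range (t * t), (w a b c p : AddMonoidAlgebra ℤ (ZMod (t * t))) *
      z ^ p * σ ((w a b c q : AddMonoidAlgebra ℤ (ZMod (t * t))) * z ^ q)) =
      w a b c p * w a b c ((p : ZMod (t * t)) - (x - y)).val := by
    intro p
    rw [map_sum]
    have e2 : ∀ q ∈ range (t * t), f ((w a b c p : AddMonoidAlgebra ℤ (ZMod (t * t))) *
        z ^ p * σ ((w a b c q : AddMonoidAlgebra ℤ (ZMod (t * t))) * z ^ q)) =
        (fun m : ZMod (t * t) => if m = (p : ZMod (t * t)) - (x - y) then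
          w a b c p * w a b c m.val else 0) (q : ZMod (t * t)) := by
      intro q hq
      have : (w a b c p : AddMonoidAlgebra ℤ (ZMod (t * t))) *
          z ^ p * σ ((w a b c q : AddMonoidAlgebra ℤ (ZMod (t * t))) * z ^ q) =
          (w a b c p * w a b c q) • (z ^ p * (σ z) ^ q) := by
        simp only [map_mul, map_intCast, map_pow, zsmul_eq_mul]
        push_cast; ring
      rw [this, map_zsmul, hpq]
      beta_reduce
      rw [ZMod.val_cast_of_lt (mem_range.1 hq)]
      by_cases h : (p : ZMod (t * t)) - (q : ZMod (t * t)) = x - y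
      · have h' : (q : ZMod (t * t)) = p - (x - y) := by linear_combination -h
        rw [if_pos h, if_pos h']; simp
      · have h' : ¬ (q : ZMod (t * t)) = p - (x - y) := fun e => h (by linear_combination -e)
        rw [if_neg h, if_neg h']; simp
    rw [sum_congr rfl e2, sum_zmod (t * t) (fun m : ZMod (t * t) =>
      if m = (p : ZMod (t * t)) - (x - y) then w a b c p * w a b c m.val else 0)]
    simp
  simp only [e1]
  have e3 : ∑ p ∈ range (t * t), w a b c p * w a b c ((p : ZMod (t * t)) - (x - y)).val =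
      ∑ m : ZMod (t * t), w a b c m.val * w a b c (m - (x - y)).val := by
    rw [← sum_zmod]
    refine sum_congr rfl fun p hp => ?_
    rw [ZMod.val_cast_of_lt (mem_range.1 hp)]
  rw [e3]
  refine Fintype.sum_equiv (Equiv.addLeft x) _ _ fun m => ?_
  have : x + m - (x - y) = y + m := by ring
  simp [this]

/-- `x + t y` runs once through `ℤ / t²` -/
lemma unif (t : ℕ) [NeZero (t * t)] (F : ZMod (t * t) → ℤ) (c : ZMod (t * t)) :
    ∑ y : Fin t, ∑ x : Fin t, F (((x : ℕ) : ZMod (t * t)) + ((t * y : ℕ) : ZMod (t * t)) + c) =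
      ∑ m, F m := by
  have e1 : ∑ m, F m = ∑ m, F (m + c) := (Equiv.sum_comp (Equiv.addRight c) F).symm
  rw [e1, ← sum_zmod (t * t) (fun m => F (m + c)), sum_range, ← Fintype.sum_prod_type']
  refine Fintype.sum_equiv finProdFinEquiv _ _ fun p => ?_
  simp [finProdFinEquiv]

end Pool.Agent.H.MP_afadd1_co
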