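import Mathlib
import Pool.Agent.H.MP_afadd1_co.Eight

set_option autoImplicit false

namespace Pool.Agent.H.MP_afadd1_co

open Finset

def Orth1 {I : Type} [Fintype I] (H : I → I → I → I → ℤ) : Prop :=
  ∀ x y, x ≠ y → ∑ b, ∑ c, ∑ d, H x b c d * H y b c d = 0

def Had4 {I : Type} [Fintype I] (H : I → I → I → I → ℤ) : Prop :=
  (∀ a b c d, H a b c d = 1 ∨ H a b c d = -1) ∧ Orth1 H ∧ Orth1 (fun a b c d => H b a c d) ∧
    Orth1 (fun a b c d => H b c a d) ∧ Orth1 (fun a b c d => H b c d a)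

lemma flip_corr {K : Type} [AddCommGroup K] [Fintype K] (G : Bool → Bool → Bool → Bool → K → ℤ)
    (anti : ∀ a b c d p, G (!a) (!b) (!c) (!d) p = sg a * sg b * sg c * sg d * G a b c d (-p))
    (x y : K) (a a' b c d : Bool) :
    ∑ m, G (!a) (!b) (!c) (!d) (x + m) * G (!a') (!b) (!c) (!d) (y + m) =
      sg a * sg a' * ∑ m, G a' b c d (x + m) * G a b c d (y + m) := by
  rw [mul_sum]
  refine Fintype.sum_equiv ((Equiv.neg K).trans (Equiv.addRight (-x - y))) _ _ fun m => ?_
  have e1 : x + (-m + (-x - y)) = -(y + m) := by abel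
  have e2 : y + (-m + (-x - y)) = -(x + m) := by abel
  simp only [Equiv.trans_apply, Equiv.neg_apply, Equiv.coe_addRight, e1, e2, anti]
  have hs : (sg b * sg c * sg d) * (sg b * sg c * sg d) = 1 := by
    cases b <;> cases c <;> cases d <;> simp [sg]
  linear_combination (sg a * sg a' * G a b c d (-(x + m)) * G a' b c d (-(y + m))) * hs

lemma plug {K J : Type} [AddCommGroup K] [Fintype K] [Fintype J]
    (G : Bool → Bool → Bool → Bool → K → ℤ)
    (anti : ∀ a b c d p, G (!a) (!b) (!c) (!d) p = sg a * sg b * sg c * sg d * G a b c d (-p))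
    (φ1 φ2 φ3 φ4 : J → K)
    (hu : ∀ F : K → ℤ, ∑ m, F m = 0 → ∑ j, ∑ k, ∑ l, F (φ2 j + φ3 k + φ4 l) = 0)
    (comp : ∀ i j, i ≠ j →
      ∑ a, ∑ b, ∑ c, ∑ d, ∑ m, G a b c d (φ1 i + m) * G a b c d (φ1 j + m) = 0) :
    Orth1 (fun x y z w : Bool × J =>
      G x.1 y.1 z.1 w.1 (φ1 x.2 + (φ2 y.2 + φ3 z.2 + φ4 w.2))) := by
  rintro ⟨ε, i⟩ ⟨ε', j⟩ hne
  obtain ⟨C, hC⟩ : ∃ C : Bool → Bool → Bool → Bool → Bool → ℤ, ∀ a a' b c d, C a a' b c d =
      ∑ m, G a b c d (φ1 i + m) * G a' b c d (φ1 j + m) := ⟨_, fun _ _ _ _ _ => rfl⟩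
  have fl : ∀ a a' b c d, C (!a) (!a') (!b) (!c) (!d) = sg a * sg a' * C a' a b c d := by
    intro a a' b c d
    rw [hC, hC, flip_corr G anti]
  have h0 : ∑ b, ∑ c, ∑ d, C ε ε' b c d = 0 := by
    have f1 := fl (!ε) (!ε') false false false
    have f2 := fl (!ε) (!ε') false false true
    have f3 := fl (!ε) (!ε') false true false
    have f4 := fl (!ε) (!ε') false true true
    have f5 := fl (!ε) (!ε') true false false
    have f6 := fl (!ε) (!ε') true false true
    have f7 := fl (!ε) (!ε') true true false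
    have f8 := fl (!ε) (!ε') true true true
    by_cases h : ε = ε'
    · subst h
      have := comp i j (fun e => hne (by rw [e]))
      simp only [← hC] at this
      cases ε <;>
        simp only [Fintype.sum_bool, Bool.not_true, Bool.not_false, sg] at * <;>
        norm_num at f1 f2 f3 f4 f5 f6 f7 f8 <;> linarith
    · cases ε <;> cases ε' <;> first
        | exact absurd rfl h
        | (simp only [Fintype.sum_bool, Bool.not_true, Bool.not_false, sg] at f1 f2 f3 f4 ⊢
           norm_num at f1 f2 f3 f4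
           linarith)
  have := hu (fun m => ∑ b, ∑ c, ∑ d, G ε b c d (φ1 i + m) * G ε' b c d (φ1 j + m)) (by
    simp only [hC, Fintype.sum_bool, sum_add_distrib] at h0 ⊢
    linarith)
  simp only [Fintype.sum_prod_type, Fintype.sum_bool, sum_add_distrib] at this ⊢
  linarith

theorem odd_case (t : ℕ) (hodd : Odd t) (h3 : 3 ≤ t) :
    ∃ H : Bool × Fin t → Bool × Fin t → Bool × Fin t → Bool × Fin t → ℤ, Had4 H := by
  have : NeZero (t * t) := ⟨by positivity⟩
  obtain ⟨g, hg, hc⟩ := eight t hodd h3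
  obtain ⟨G, hG⟩ : ∃ G : Bool → Bool → Bool → Bool → ZMod (t * t) → ℤ, ∀ a b c d p,
      G a b c d p = if a then sg (!b) * sg (!c) * sg (!d) * g (!b) (!c) (!d) (-p)
        else g b c d p := ⟨_, fun _ _ _ _ _ => rfl⟩
  have anti : ∀ a b c d p,
      G (!a) (!b) (!c) (!d) p = sg a * sg b * sg c * sg d * G a b c d (-p) := by
    intro a b c d p
    rw [hG, hG]
    cases a <;> cases b <;> cases c <;> cases d <;> simp [sg]
  obtain ⟨φ, hφ⟩ : ∃ φ : Fin t → ZMod (t * t), ∀ i, φ i = ((i : ℕ) : ZMod (t * t)) :=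
    ⟨_, fun _ => rfl⟩
  obtain ⟨ψ, hψ⟩ : ∃ ψ : Fin t → ZMod (t * t), ∀ i, ψ i = ((t * i : ℕ) : ZMod (t * t)) :=
    ⟨_, fun _ => rfl⟩
  have hun : ∀ (F : ZMod (t * t) → ℤ) (c : ZMod (t * t)), ∑ m, F m = 0 →
      ∑ x, ∑ y, F (φ x + ψ y + c) = 0 := by
    intro F c h
    rw [sum_comm]
    simp only [hφ, hψ]
    rw [unif, h]
  have u1 : ∀ F : ZMod (t * t) → ℤ, ∑ m, F m = 0 →
      ∑ j, ∑ k, ∑ l, F (φ j + ψ k + ψ l) = 0 := by
    intro F h
    rw [sum_comm]
    refine sum_eq_zero fun k _ => ?_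
    rw [← hun F (ψ k) h]
    refine sum_congr rfl fun j _ => sum_congr rfl fun l _ => ?_
    congr 1; ring
  have u2 : ∀ F : ZMod (t * t) → ℤ, ∑ m, F m = 0 →
      ∑ j, ∑ k, ∑ l, F (φ j + φ k + ψ l) = 0 := by
    intro F h
    refine sum_eq_zero fun k _ => ?_
    rw [← hun F (φ k) h]
    refine sum_congr rfl fun j _ => sum_congr rfl fun l _ => ?_
    congr 1; ring
  have full : ∀ x y : ZMod (t * t),
      (∑ a, ∑ b, ∑ c, ∑ m, g a b c (x + m) * g a b c (y + m) = 0) →
      ∃ C : Bool → Bool → Bool → Bool → ℤ,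
        (∀ a b c d, ∑ m, G a b c d (x + m) * G a b c d (y + m) = C a b c d) ∧
        ∑ a, ∑ b, ∑ c, ∑ d, C a b c d = 0 := by
    intro x y h
    refine ⟨fun a b c d => ∑ m, G a b c d (x + m) * G a b c d (y + m), fun _ _ _ _ => rfl, ?_⟩
    have e : ∀ b c d m, g b c d m = G false b c d m := fun b c d m => by rw [hG]; simp
    simp only [e] at h
    have f1 := flip_corr G anti x y false false false false false
    have f2 := flip_corr G anti x y false false false false true
    have f3 := flip_corr G anti x y false false false true false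
    have f4 := flip_corr G anti x y false false false true true
    have f5 := flip_corr G anti x y false false true false false
    have f6 := flip_corr G anti x y false false true false true
    have f7 := flip_corr G anti x y false false true true false
    have f8 := flip_corr G anti x y false false true true true
    simp only [Fintype.sum_bool, Bool.not_true, Bool.not_false, sg] at f1 f2 f3 f4 f5 f6 f7 f8 h ⊢
    norm_num at f1 f2 f3 f4 f5 f6 f7 f8
    linarith
  have c1 : ∀ i j, i ≠ j → ∃ C : Bool → Bool → Bool → Bool → ℤ,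
      (∀ a b c d, ∑ m, G a b c d (φ i + m) * G a b c d (φ j + m) = C a b c d) ∧
        ∑ a, ∑ b, ∑ c, ∑ d, C a b c d = 0 :=
    fun i j h => full _ _ (hc _ _ (Or.inl ⟨i, j, h, hφ i, hφ j⟩))
  have c2 : ∀ i j, i ≠ j → ∃ C : Bool → Bool → Bool → Bool → ℤ,
      (∀ a b c d, ∑ m, G a b c d (ψ i + m) * G a b c d (ψ j + m) = C a b c d) ∧
        ∑ a, ∑ b, ∑ c, ∑ d, C a b c d = 0 :=
    fun i j h => full _ _ (hc _ _ (Or.inr ⟨i, j, h, hψ i, hψ j⟩))
  refine ⟨fun x y z w => G x.1 y.1 z.1 w.1 (φ x.2 + φ y.2 + ψ z.2 + ψ w.2), ?_, ?_, ?_, ?_, ?_⟩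
  · rintro ⟨a, i⟩ ⟨b, j⟩ ⟨c, k⟩ ⟨d, l⟩
    simp only [hG]
    cases a
    · exact hg _ _ _ _
    · rcases hg (!b) (!c) (!d) (-(φ i + φ j + ψ k + ψ l)) with h | h <;>
        simp only [h, if_true] <;> cases b <;> cases c <;> cases d <;> simp [sg]
  · have := plug G anti φ φ ψ ψ u1 (fun i j h => by
      obtain ⟨C, h1, h2⟩ := c1 i j h
      simp only [h1]; exact h2)
    convert this using 6
    ring
  · have := plug (fun a b c d => G b a c d) (fun a b c d p => by rw [anti]; ring) φ φ ψ ψ u1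
      (fun i j h => by
        obtain ⟨C, h1, h2⟩ := c1 i j h
        simp only [h1]
        simp only [Fintype.sum_bool] at h2 ⊢
        linarith)
    convert this using 6
    ring
  · have := plug (fun a b c d => G b c a d) (fun a b c d p => by rw [anti]; ring) ψ φ φ ψ u2
      (fun i j h => by
        obtain ⟨C, h1, h2⟩ := c2 i j h
        simp only [h1]
        simp only [Fintype.sum_bool] at h2 ⊢
        linarith)
    convert this using 6
    ring
  · have := plug (fun a b c d => G b c d a) (fun a b c d p => by rw [anti]; ring) ψ φ φ ψ u2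
      (fun i j h => by
        obtain ⟨C, h1, h2⟩ := c2 i j h
        simp only [h1]
        simp only [Fintype.sum_bool] at h2 ⊢
        linarith)
    convert this using 6
    ring

lemma Orth1.tensor {I J : Type} [Fintype I] [Fintype J] {h : I → I → I → I → ℤ}
    {H : J → J → J → J → ℤ} (h1 : Orth1 h) (h2 : Orth1 H) :
    Orth1 (fun x y z w : I × J => h x.1 y.1 z.1 w.1 * H x.2 y.2 z.2 w.2) := by
  rintro ⟨a, i⟩ ⟨a', j⟩ hne
  have e : ∑ y : I × J, ∑ z : I × J, ∑ w : I × J,
      h a y.1 z.1 w.1 * H i y.2 z.2 w.2 * (h a' y.1 z.1 w.1 * H j y.2 z.2 w.2) =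
      (∑ b, ∑ c, ∑ d, h a b c d * h a' b c d) * (∑ b, ∑ c, ∑ d, H i b c d * H j b c d) := by
    rw [sum_mul_sum, Fintype.sum_prod_type]
    refine sum_congr rfl fun b _ => sum_congr rfl fun b' _ => ?_
    rw [sum_mul_sum, Fintype.sum_prod_type]
    refine sum_congr rfl fun c _ => sum_congr rfl fun c' _ => ?_
    rw [sum_mul_sum, Fintype.sum_prod_type]
    refine sum_congr rfl fun d _ => sum_congr rfl fun d' _ => ?_
    ring
  refine e.trans ?_
  by_cases hij : i = j
  · rw [h1 a a' (fun e => hne (by rw [e, hij])), zero_mul]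
  · rw [h2 i j hij, mul_zero]

lemma Had4.tensor {I J : Type} [Fintype I] [Fintype J] {h : I → I → I → I → ℤ}
    {H : J → J → J → J → ℤ} (h1 : Had4 h) (h2 : Had4 H) :
    Had4 (fun x y z w : I × J => h x.1 y.1 z.1 w.1 * H x.2 y.2 z.2 w.2) := by
  obtain ⟨a0, a1, a2, a3, a4⟩ := h1
  obtain ⟨b0, b1, b2, b3, b4⟩ := h2
  have c1 := a1.tensor b1
  have c2 := a2.tensor b2
  have c3 := a3.tensor b3
  have c4 := a4.tensor b4
  refine ⟨fun x y z w => ?_, c1, c2, c3, c4⟩
  rcases a0 x.1 y.1 z.1 w.1 with h | h <;> rcases b0 x.2 y.2 z.2 w.2 with h' | h' <;>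
    simp [h, h']

lemma Orth1.transport {I J : Type} [Fintype I] [Fintype J] (e : J ≃ I) {H : I → I → I → I → ℤ}
    (h : Orth1 H) : Orth1 (fun x y z w : J => H (e x) (e y) (e z) (e w)) := by
  intro x y hne
  rw [← h (e x) (e y) (fun h => hne (e.injective h))]
  refine Fintype.sum_equiv e _ _ fun b => Fintype.sum_equiv e _ _ fun c =>
    Fintype.sum_equiv e _ _ fun d => rfl

lemma Had4.transport {I J : Type} [Fintype I] [Fintype J] (e : J ≃ I) {H : I → I → I → I → ℤ}
    (h : Had4 H) : Had4 (fun x y z w : J => H (e x) (e y) (e z) (e w)) := by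
  obtain ⟨a0, a1, a2, a3, a4⟩ := h
  exact ⟨fun _ _ _ _ => a0 _ _ _ _, a1.transport e, a2.transport e, a3.transport e,
    a4.transport e⟩

lemma had_two : Had4 (fun a b c d : Bool => sg (a && b) * sg (c && d)) := by
  unfold Had4 Orth1
  decide

theorem four (t : ℕ) (ht : 1 ≤ t) :
    ∃ H : Fin (2 * t) → Fin (2 * t) → Fin (2 * t) → Fin (2 * t) → ℤ, Had4 H := by
  induction t using Nat.strong_induction_on with
  | _ t ih =>
    rcases Nat.even_or_odd t with ⟨u, hu⟩ | hodd
    · obtain ⟨H, hH⟩ := ih u (by omega) (by omega)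
      exact ⟨_, (had_two.tensor hH).transport
        (Fintype.equivFinOfCardEq (by simp; omega)).symm⟩
    · by_cases h1 : t = 1
      · exact ⟨_, had_two.transport (Fintype.equivFinOfCardEq (by simp [h1])).symm⟩
      · obtain ⟨H, hH⟩ := odd_case t hodd (by obtain ⟨k, hk⟩ := hodd; omega)
        exact ⟨_, hH.transport (Fintype.equivFinOfCardEq (by simp)).symm⟩

end Pool.Agent.H.MP_afadd1_co
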