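import Mathlib
import Pool.Agent.H.MP_afadd1_co.Four

set_option autoImplicit false

namespace Pool.Agent.H.MP_afadd1_co

open Finset

lemma sum_cons' {I : Type} [Fintype I] (n : ℕ) (f : (Fin (n + 1) → I) → ℤ) :
    ∑ i, f i = ∑ a : I, ∑ r : Fin n → I, f (Fin.cons a r) := by
  rw [← Fintype.sum_prod_type']
  exact ((Fin.consEquiv (fun _ : Fin (n + 1) => I)).sum_comp f).symm

lemma tail_sum {I : Type} [Fintype I] [AddCommGroup I] (m : ℕ) (F : I → ℤ) (h : ∑ d, F d = 0) :
    ∑ r : Fin (m + 1) → I, F (∑ j, r j) = 0 := by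
  rw [sum_cons', sum_comm]
  refine sum_eq_zero fun r _ => ?_
  simp only [Fin.sum_univ_succ, Fin.cons_zero, Fin.cons_succ]
  rw [← h]
  exact Equiv.sum_comp (Equiv.addRight (∑ j, r j)) F

lemma sum3 {I J : Type} [Fintype I] [Fintype J] (F : I → I → J → ℤ) :
    ∑ b, ∑ c, ∑ r, F b c r = ∑ r, ∑ b, ∑ c, F b c r := by
  rw [sum_comm (s := (univ : Finset J))]
  exact sum_congr rfl fun b _ => sum_comm

theorem lift {I : Type} [Fintype I] [DecidableEq I] [AddCommGroup I] (H : I → I → I → I → ℤ)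
    (hH : Had4 H) (m : ℕ) :
    ∃ A : (Fin (m + 4) → I) → ℤ, (∀ i, A i = 1 ∨ A i = -1) ∧
      ∀ (l : Fin (m + 4)) (x y : I), x ≠ y →
        ∑ i : Fin (m + 4) → I, A (Function.update i l x) * A (Function.update i l y) = 0 := by
  obtain ⟨a0, a1, a2, a3, a4⟩ := hH
  obtain ⟨A, hA0, hA⟩ : ∃ A : (Fin (m + 4) → I) → ℤ, (∀ i, A i = 1 ∨ A i = -1) ∧
      ∀ (a b c : I) (r : Fin (m + 1) → I),
        A (Fin.cons a (Fin.cons b (Fin.cons c r : Fin (m + 2) → I) : Fin (m + 3) → I)) =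
          H a b c (∑ j, r j) :=
    ⟨fun i => H (i 0) (i (Fin.succ 0)) (i (Fin.succ (Fin.succ 0)))
      (∑ j : Fin (m + 1), i j.succ.succ.succ), fun i => a0 _ _ _ _,
      fun a b c r => by simp only [Fin.cons_zero, Fin.cons_succ]⟩
  refine ⟨A, hA0, fun l x y hxy => ?_⟩
  rw [sum_cons']
  simp only [sum_cons' (m + 2), sum_cons' (m + 1)]
  refine Fin.cases ?_ (fun l => ?_) l
  · simp only [Fin.update_cons_zero, hA]
    refine sum_eq_zero fun a _ => ?_
    rw [sum3]
    refine tail_sum m (fun d => ∑ b, ∑ c, H x b c d * H y b c d) ?_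
    rw [← sum3]
    exact a1 x y hxy
  simp only [← Fin.cons_update]
  refine Fin.cases ?_ (fun l => ?_) l
  · simp only [Fin.update_cons_zero, hA]
    rw [sum_comm]
    refine sum_eq_zero fun a _ => ?_
    rw [sum3]
    refine tail_sum m (fun d => ∑ b, ∑ c, H b x c d * H b y c d) ?_
    rw [← sum3]
    exact a2 x y hxy
  simp only [← Fin.cons_update]
  refine Fin.cases ?_ (fun l => ?_) l
  · simp only [Fin.update_cons_zero, hA]
    rw [sum3]
    refine sum_eq_zero fun a _ => ?_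
    rw [sum3]
    refine tail_sum m (fun d => ∑ b, ∑ c, H b c x d * H b c y d) ?_
    rw [← sum3]
    exact a3 x y hxy
  simp only [← Fin.cons_update, hA]
  have e : ∀ a : I, ∑ b, ∑ c, ∑ r : Fin (m + 1) → I,
      H a b c (∑ j, Function.update r l x j) * H a b c (∑ j, Function.update r l y j) =
      ∑ r : Fin (m + 1) → I, ∑ b, ∑ c,
      H a b c (∑ j, Function.update r l x j) * H a b c (∑ j, Function.update r l y j) :=
    fun a => sum3 _
  simp only [e]
  rw [sum_comm]
  refine sum_eq_zero fun r _ => a4 _ _ ?_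
  rw [sum_update_of_mem (mem_univ l), sum_update_of_mem (mem_univ l)]
  exact fun h => hxy (add_right_cancel h)

theorem main : ∀ n : ℕ, 4 ≤ n → ∀ t : ℕ, 1 ≤ t →
      ∃ A : (Fin n → Fin (2 * t)) → ℤ,
        (∀ i, A i = 1 ∨ A i = -1) ∧
        ∀ l : Fin n, ∀ x y : Fin (2 * t),
          (∑ i : Fin n → Fin (2 * t),
              A (Function.update i l x) * A (Function.update i l y)) =
            if x = y then ((2 * t : ℕ) : ℤ) ^ n else 0 := by
  intro n hn t ht
  obtain ⟨m, rfl⟩ : ∃ m, n = m + 4 := ⟨n - 4, by omega⟩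
  have : NeZero (2 * t) := ⟨by omega⟩
  obtain ⟨H, hH⟩ := four t ht
  obtain ⟨A, hA0, hA⟩ := lift H hH m
  refine ⟨A, hA0, fun l x y => ?_⟩
  by_cases h : x = y
  · subst h
    have : ∀ i, A i * A i = 1 := fun i => by rcases hA0 i with h | h <;> simp [h]
    simp [this]
  · rw [if_neg h]
    exact hA l x y h

end Pool.Agent.H.MP_afadd1_co
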